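import Pool.Agent.Y17.N.Defs

/-!
# INVO: the number of the remaining representations of `9 m` by `b² + 14 y²` is even

(helper474, project Z17N of helper17.)
-/

set_option autoImplicit false

namespace Pool.Agent.Y474.N

open Finset Matrix
open Pool.Agent.Z700 (pr be Fam)
open Pool.Agent.Y17.N (FixV S_INVO)

theorem pr_mod (P : Finset ℕ) (hP : ∀ p ∈ P, Fam p) : pr P % 24 = 1 := by
  unfold pr
  rw [Finset.prod_nat_mod, Finset.prod_congr rfl (fun p hp => (hP p hp).2.1)]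
  simp

/-- the relation between `b` and its image -/
def R (m b c : ℤ) : Prop := ∃ y : ℤ, 9 * m = b ^ 2 + 14 * y ^ 2 ∧ 9 * c = -(5 * b - 28 * y)

theorem R_symm {m b c : ℤ} (h : R m b c) : R m c b := by
  obtain ⟨y, h1, h2⟩ := h
  obtain ⟨y', hy'⟩ : (9 : ℤ) ∣ 2 * b + 5 * y := by omega
  refine ⟨y', ?_, by omega⟩
  have e1 : (81 : ℤ) * (9 * m) = 81 * (c ^ 2 + 14 * y' ^ 2) := by
    have : (81 : ℤ) * (c ^ 2 + 14 * y' ^ 2) = (9 * c) ^ 2 + 14 * (9 * y') ^ 2 := by ring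
    rw [this, h2, ← hy', h1]
    ring
  linarith

theorem R_uniq {m b c c' : ℤ} (hb : ¬ (3 : ℤ) ∣ b) (h : R m b c) (h' : R m b c') : c = c' := by
  obtain ⟨y, h1, h2⟩ := h
  obtain ⟨y', h1', h2'⟩ := h'
  have e1 : y ^ 2 = y' ^ 2 := by linarith
  rcases sq_eq_sq_iff_eq_or_eq_neg.1 e1 with e | e
  · subst e; omega
  · exfalso
    omega

theorem R_irr {m b : ℤ} (hb : b % 2 = 1) : ¬ R m b b := by
  rintro ⟨y, -, h2⟩
  omega

theorem mem_FixV (P : Finset ℕ) (b : ℤ) : b ∈ FixV P ↔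
    b ∈ Ioo (-(9 * (pr P : ℤ))) (9 * (pr P : ℤ)) ∧ ((b % 12 = 5 ∨ b % 12 = 7) ∧
    (b : ZMod 7) = -(2 * be P) ∧ ∃ y ∈ range (9 * pr P),
      9 * (pr P : ℤ) = b ^ 2 + 14 * (y : ℤ) ^ 2 ∧ ∀ p ∈ P, jacobiSym y p = 1) := by
  simp only [FixV, Finset.mem_filter]

theorem abs_lt' {m b : ℤ} (hm : 0 < m) (h : b ^ 2 ≤ 9 * m) : -(9 * m) < -b ∧ -b < 9 * m := by
  have h1 : b ^ 2 < (9 * m) ^ 2 := by nlinarith
  have h2 := abs_lt_of_sq_lt_sq h1 (by linarith)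
  rw [abs_lt] at h2
  constructor <;> linarith [h2.1, h2.2]

theorem natAbs_lt {m y : ℤ} (hm : 0 < m) (h : y ^ 2 ≤ 9 * m) : (y.natAbs : ℤ) < 9 * m := by
  have h1 : y ^ 2 < (9 * m) ^ 2 := by nlinarith
  have h2 := abs_lt_of_sq_lt_sq h1 (by linarith)
  rwa [Int.natCast_natAbs]

theorem mod9 : ∀ b y : ZMod 9, b ^ 2 + 14 * y ^ 2 = 0 → 3 * b ≠ 0 →
    5 * b - 28 * y = 0 ∨ 5 * b - 28 * (-y) = 0 := by decide

/-- choice of the sign of `y` -/
theorem sign {m b y : ℤ} (hb3 : ¬ (3 : ℤ) ∣ b) (hy : 9 * m = b ^ 2 + 14 * y ^ 2) :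
    ∃ z : ℤ, (z = y ∨ z = -y) ∧ (9 : ℤ) ∣ 5 * b - 28 * z := by
  have h1 : ((b : ZMod 9)) ^ 2 + 14 * (y : ZMod 9) ^ 2 = 0 := by
    have h2 : ((b ^ 2 + 14 * y ^ 2 : ℤ) : ZMod 9) = 0 := by
      rw [← hy, ZMod.intCast_zmod_eq_zero_iff_dvd]
      exact Dvd.intro _ rfl
    push_cast at h2 ⊢
    exact h2
  have h3 : 3 * (b : ZMod 9) ≠ 0 := by
    intro h
    have h4 : ((3 * b : ℤ) : ZMod 9) = 0 := by push_cast; exact h
    rw [ZMod.intCast_zmod_eq_zero_iff_dvd] at h4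
    omega
  rcases mod9 _ _ h1 h3 with h | h
  · refine ⟨y, Or.inl rfl, ?_⟩
    have h4 : ((5 * b - 28 * y : ℤ) : ZMod 9) = 0 := by push_cast; exact h
    rw [ZMod.intCast_zmod_eq_zero_iff_dvd] at h4
    exact_mod_cast h4
  · refine ⟨-y, Or.inr rfl, ?_⟩
    have h4 : ((5 * b - 28 * (-y) : ℤ) : ZMod 9) = 0 := by push_cast; exact h
    rw [ZMod.intCast_zmod_eq_zero_iff_dvd] at h4
    exact_mod_cast h4

theorem norm_eq {m b z b' y' : ℤ} (hz : 9 * m = b ^ 2 + 14 * z ^ 2)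
    (hb' : 5 * b - 28 * z = 9 * b') (hy' : 2 * b + 5 * z = 9 * y') :
    9 * m = b' ^ 2 + 14 * y' ^ 2 := by
  have e1 : (81 : ℤ) * (9 * m) = 81 * (b' ^ 2 + 14 * y' ^ 2) := by
    have : (81 : ℤ) * (b' ^ 2 + 14 * y' ^ 2) = (9 * b') ^ 2 + 14 * (9 * y') ^ 2 := by ring
    rw [this, ← hb', ← hy', hz]
    ring
  linarith

theorem three_aux {b s : ℤ} (hb : ¬ (3 : ℤ) ∣ b) (h : (b * s) % 3 = 2) : (b + s) % 3 = 0 := by
  have hb3' : b % 3 = 1 ∨ b % 3 = 2 := by omega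
  have hs3 : s % 3 = 0 ∨ s % 3 = 1 ∨ s % 3 = 2 := by omega
  rw [Int.mul_emod] at h
  rcases hb3' with h1 | h1 <;> rcases hs3 with h' | h' | h' <;> rw [h1, h'] at h <;> omega

theorem mod3 {m b z b' : ℤ} (hm : m % 3 = 1) (hb3 : ¬ (3 : ℤ) ∣ b)
    (hz : 9 * m = b ^ 2 + 14 * z ^ 2) (hb' : 5 * b - 28 * z = 9 * b') : (b' - b) % 3 = 0 := by
  obtain ⟨s, hs⟩ : ∃ s : ℤ, z = 5 * b + 9 * s := ⟨(z - 5 * b) / 9, by omega⟩
  have e1 : b' = -15 * b - 28 * s := by omega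
  have e2 : 9 * m = 351 * b ^ 2 + 1260 * (b * s) + 1134 * s ^ 2 := by
    rw [hz, hs]; ring
  have e3 : (b * s) % 3 = 2 := by
    have : m = 39 * b ^ 2 + 140 * (b * s) + 126 * s ^ 2 := by linarith
    omega
  have := three_aux hb3 e3
  omega

theorem mod12 {b z b' : ℤ} (h12 : b % 12 = 5 ∨ b % 12 = 7) (h3 : (b' - b) % 3 = 0)
    (hb' : 5 * b - 28 * z = 9 * b') : -b' % 12 = 5 ∨ -b' % 12 = 7 := by omega

theorem mod7 {b z b' : ℤ} (hb' : 5 * b - 28 * z = 9 * b') : ((-b' : ℤ) : ZMod 7) = b := by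
  have h1 : (((-b') - b : ℤ) : ZMod 7) = 0 := by
    rw [ZMod.intCast_zmod_eq_zero_iff_dvd]
    omega
  rw [Int.cast_sub, sub_eq_zero] at h1
  exact h1

theorem nine_dvd {b z b' : ℤ} (hb' : 5 * b - 28 * z = 9 * b') : ∃ y', 2 * b + 5 * z = 9 * y' := by
  obtain ⟨y', hy'⟩ : (9 : ℤ) ∣ 2 * b + 5 * z := by omega
  exact ⟨y', hy'⟩

/-- the Jacobi symbol of `y'` -/
theorem jac {p : ℕ} (hp : Fam p) {m b z y' : ℤ} (hpm : (p : ℤ) ∣ m)
    (hz : 9 * m = b ^ 2 + 14 * z ^ 2) (hy' : 2 * b + 5 * z = 9 * y') (y : ℤ) (hzy : z = y ∨ z = -y)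
    (hj : jacobiSym y p = 1) : jacobiSym (y'.natAbs : ℤ) p = 1 := by
  have : Fact p.Prime := ⟨hp.1⟩
  have hp24 := hp.2.1
  have hp8 : p % 8 = 1 := by omega
  have hneg : jacobiSym (-1) p = 1 := by
    rw [jacobiSym.at_neg_one (by rw [Nat.odd_iff]; omega), ZMod.χ₄_nat_one_mod_four (by omega)]
  have htwo : jacobiSym 2 p = 1 := by
    rw [jacobiSym.at_two (by rw [Nat.odd_iff]; omega), ZMod.χ₈_nat_eq_if_mod_eight]
    simp only [hp8]
    have : ¬ p % 2 = 0 := by omega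
    simp [this]
  have hjz : jacobiSym z p = 1 := by
    rcases hzy with rfl | rfl
    · exact hj
    · rw [← neg_one_mul, jacobiSym.mul_left, hneg, one_mul]
      exact hj
  have hjy : jacobiSym (y'.natAbs : ℤ) p = jacobiSym y' p := by
    rcases Int.natAbs_eq y' with h | h
    · rw [← h]
    · conv_rhs => rw [h, ← neg_one_mul, jacobiSym.mul_left, hneg, one_mul]
  rw [hjy]
  have hzero : ∀ a : ℤ, jacobiSym a p = 0 → (p : ℤ) ∣ a := by
    intro a h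
    rw [← jacobiSym.legendreSym.to_jacobiSym, legendreSym.eq_zero_iff,
      ZMod.intCast_zmod_eq_zero_iff_dvd] at h
    exact h
  have hzero' : ∀ a : ℤ, (p : ℤ) ∣ a → jacobiSym a p = 0 := by
    intro a h
    rw [← jacobiSym.legendreSym.to_jacobiSym, legendreSym.eq_zero_iff,
      ZMod.intCast_zmod_eq_zero_iff_dvd]
    exact h
  have hsq : ∀ a : ℤ, ¬ (p : ℤ) ∣ a → jacobiSym (a ^ 2) p = 1 := by
    intro a ha
    rw [jacobiSym.pow_left]
    rcases jacobiSym.trichotomy a p with h | h | h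
    · exact absurd (hzero a h) ha
    · rw [h]; norm_num
    · rw [h]; norm_num
  have hpz : ¬ (p : ℤ) ∣ z := by
    intro h
    rw [hzero' z h] at hjz
    exact zero_ne_one hjz
  have hpp : Prime (p : ℤ) := Nat.prime_iff_prime_int.1 hp.1
  have h2le := hp.1.two_le
  have hsmall : ∀ n : ℕ, 0 < n → n < 25 → ¬ (p : ℤ) ∣ (n : ℤ) := by
    intro n h0 hn h
    have h3 : p ∣ n := by exact_mod_cast h
    have h4 := Nat.le_of_dvd h0 h3
    omega
  have hpb : ¬ (p : ℤ) ∣ b - 2 * z := by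
    rintro ⟨t, ht⟩
    have h1 : (p : ℤ) ∣ 18 * z ^ 2 := by
      have hb : b = 2 * z + p * t := by linarith
      have h2 : 18 * z ^ 2 = 9 * m - p * (4 * z * t + p * t ^ 2) := by
        rw [hz, hb]; ring
      rw [h2]
      exact dvd_sub (dvd_mul_of_dvd_right hpm _) (dvd_mul_right _ _)
    rcases hpp.dvd_or_dvd h1 with h | h
    · exact hsmall 18 (by norm_num) (by norm_num) (by exact_mod_cast h)
    · exact hpz (hpp.dvd_of_dvd_pow h)
  have e1 : jacobiSym ((b - 2 * z) ^ 2) p = 1 := hsq _ hpb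
  have e2 : jacobiSym ((b - 2 * z) ^ 2) p = jacobiSym ((-1) * 2 * 3 ^ 2 * (z * y')) p := by
    apply jacobiSym.mod_left'
    have h1 : (b - 2 * z) ^ 2 = (-1) * 2 * 3 ^ 2 * (z * y') + 9 * m := by
      have h3 : (-1 : ℤ) * 2 * 3 ^ 2 * (z * y') = - (2 * z * (9 * y')) := by ring
      rw [h3, ← hy', hz]; ring
    rw [h1]
    obtain ⟨t, ht⟩ := hpm
    rw [ht, show (9 : ℤ) * (p * t) = p * (9 * t) by ring, Int.add_mul_emod_self_left]
  have e3 : jacobiSym (3 ^ 2) p = 1 :=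
    hsq 3 (by exact_mod_cast hsmall 3 (by norm_num) (by norm_num))
  rw [e2, jacobiSym.mul_left, jacobiSym.mul_left, jacobiSym.mul_left, hneg, htwo, e3,
    jacobiSym.mul_left, hjz] at e1
  simpa using e1

theorem t_INVO : S_INVO := by
  intro P hP hne
  have hm24 : ((pr P : ℕ) : ℤ) % 24 = 1 := by
    have := pr_mod P hP
    omega
  have hmpos : (0 : ℤ) < ((pr P : ℕ) : ℤ) := by
    have := pr_mod P hP
    omega
  have hm3 : ((pr P : ℕ) : ℤ) % 3 = 1 := by omega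
  have hex : ∀ b ∈ FixV P, ∃ c ∈ FixV P, R ((pr P : ℕ) : ℤ) b c := by
    intro b hb
    rw [mem_FixV] at hb
    obtain ⟨-, hb12, hb7, y, -, hy, hj⟩ := hb
    have hb3 : ¬ (3 : ℤ) ∣ b := by omega
    obtain ⟨z, hz, b', hb'⟩ := sign hb3 hy
    have hz2 : 9 * ((pr P : ℕ) : ℤ) = b ^ 2 + 14 * z ^ 2 := by
      rcases hz with rfl | rfl
      · exact hy
      · rw [neg_sq]; exact hy
    obtain ⟨y', hy'⟩ := nine_dvd hb'
    have hn := norm_eq hz2 hb' hy'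
    have hmod3 := mod3 hm3 hb3 hz2 hb'
    refine ⟨-b', ?_, z, hz2, by rw [hb']; ring⟩
    have hsq : b' ^ 2 ≤ 9 * ((pr P : ℕ) : ℤ) := by
      have := sq_nonneg y'
      linarith
    have hsy : y' ^ 2 ≤ 9 * ((pr P : ℕ) : ℤ) := by
      have h1 := sq_nonneg y'
      have h2 := sq_nonneg b'
      linarith
    rw [mem_FixV, Finset.mem_Ioo]
    refine ⟨abs_lt' hmpos hsq, ?_, ?_, y'.natAbs, ?_, ?_, ?_⟩
    · exact mod12 hb12 hmod3 hb'
    · rw [← hb7]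
      exact mod7 hb'
    · rw [Finset.mem_range]
      have h1 := natAbs_lt hmpos hsy
      exact_mod_cast h1
    · rw [neg_sq, Int.natAbs_sq]
      exact hn
    · intro p hp
      exact jac (hP p hp) (by exact_mod_cast Finset.dvd_prod_of_mem (fun p => p) hp) hz2 hy' y hz
        (hj p hp)
  choose! g hg hR using hex
  have hodd : ∀ b ∈ FixV P, b % 2 = 1 ∧ ¬ (3 : ℤ) ∣ b := by
    intro b hb
    rw [mem_FixV] at hb
    obtain ⟨-, hb12, -⟩ := hb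
    constructor <;> omega
  have hsum : ∑ b ∈ FixV P, (1 : ZMod 2) = 0 := by
    refine Finset.sum_involution (fun b _ => g b) (fun b _ => by decide) (fun b hb _ h => ?_)
      (fun b hb => hg b hb) (fun b hb => ?_)
    · have h1 := hR b hb
      rw [h] at h1
      exact R_irr (hodd b hb).1 h1
    · exact (R_uniq (hodd _ (hg b hb)).2 (hR _ (hg b hb)) (R_symm (hR b hb)))
  rw [Finset.sum_const, nsmul_eq_mul, mul_one, ZMod.natCast_eq_zero_iff] at hsum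
  exact even_iff_two_dvd.2 hsum

end Pool.Agent.Y474.N
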